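import Pool.Agent.Helper9.Res.PM
import Pool.Agent.Helper1.Res.LA4

/-!
# Project RES: the inner triples killed by one line of labelled cells

`e = {u, v, t}`, `f = {a, b, c}` are two blocks.  A label on the cell `u a` and an inner triple of
the other four points leave a point of `E`; so the inner triples of `v, t, b, c` are missing if
their left points are in `E`.  `kills1`, `kills2`, `kills3` count the missing inner triples which
do not contain `u` if one, two or three cells of the row `u` are labelled.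
-/

namespace RouteA

open Finset Res12 Helper9.Res Helper1.Res

set_option linter.unusedSectionVars false

variable {V : Type} [Fintype V] [DecidableEq V]
variable {F P : Finset (Finset V)} {s j : ℕ} {x y : V}

/-- `1` if the set is not in `F` -/
def mz (F : Finset (Finset V)) (g : Finset V) : ℕ := if g ∈ F then 0 else 1

theorem mz_eq_ms (p q r : V) : mz F {p, q, r} = ms F p q r := rfl

theorem mem_of_mz {g : Finset V} (h : mz F g = 0) : g ∈ F := by
  unfold mz at h
  by_contra hc
  rw [if_neg hc] at h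
  omega

/-- three different triples, those not in `F` in `R` -/
theorem three_card {R : Finset (Finset V)} {g1 g2 g3 : Finset V} (h12 : g1 ≠ g2) (h13 : g1 ≠ g3)
    (h23 : g2 ≠ g3) (m1 : g1 ∉ F → g1 ∈ R) (m2 : g2 ∉ F → g2 ∈ R) (m3 : g3 ∉ F → g3 ∈ R) :
    mz F g1 + mz F g2 + mz F g3 ≤ R.card := by
  have hs : ({g1, g2, g3} : Finset (Finset V)).filter (fun g => g ∉ F) ⊆ R := by
    intro g hg
    simp only [mem_filter, mem_insert, mem_singleton] at hg
    rcases hg with ⟨rfl | rfl | rfl, hg⟩
    · exact m1 hg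
    · exact m2 hg
    · exact m3 hg
  refine le_trans (le_of_eq ?_) (card_le_card hs)
  rw [card_filter, sum_insert (by simp [h12, h13]), sum_insert (by simp [h23]), sum_singleton]
  unfold mz
  by_cases a1 : g1 ∈ F <;> by_cases a2 : g2 ∈ F <;> by_cases a3 : g3 ∈ F <;> simp [a1, a2, a3]

/-- membership in `mis F {e, f}` -/
theorem mem_mis_two {e f g : Finset V} (hc : g.card = 3) (hF : g ∉ F) (hs : ∀ z ∈ g, z ∈ e ∨ z ∈ f)
    (he : ∃ z ∈ g, z ∈ e) (hf : ∃ z ∈ g, z ∈ f) : g ∈ mis F {e, f} := by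
  unfold mis
  rw [mem_filter, mem_powersetCard]
  refine ⟨⟨?_, hc⟩, hF, ?_⟩
  · intro z hz
    rcases hs z hz with h | h
    · exact mem_VS.2 ⟨e, by simp, h⟩
    · exact mem_VS.2 ⟨f, by simp, h⟩
  · obtain ⟨z, hz, hze⟩ := he
    obtain ⟨z', hz', hzf⟩ := hf
    ext b
    rw [mem_bl]
    constructor
    · exact fun h => h.1
    · intro hb
      refine ⟨hb, ?_⟩
      rw [Finset.not_disjoint_iff]
      rw [mem_insert, mem_singleton] at hb
      rcases hb with rfl | rfl
      · exact ⟨z, hze, hz⟩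
      · exact ⟨z', hzf, hz'⟩

section Kills

variable (h : SetUp F s j P x y) {u v t a b c : V}
  (he : ({u, v, t} : Finset V) ∈ P) (hf : ({a, b, c} : Finset V) ∈ P)
  (hef : ({u, v, t} : Finset V) ≠ {a, b, c})
include h he hf hef

/-- the missing inner triples without the point `u` -/
theorem mis_off : mz F {v, t, a} + mz F {v, t, b} + mz F {v, t, c} +
      (mz F {v, b, c} + mz F {v, a, c} + mz F {v, a, b}) +
      (mz F {t, b, c} + mz F {t, a, c} + mz F {t, a, b}) ≤
    ((mis F {{u, v, t}, {a, b, c}}).filter (fun g => u ∉ g)).card := by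
  obtain ⟨⟨n1, n2, n3⟩, ⟨n4, n5, n6⟩, ⟨n7, n8, n9⟩, ⟨n10, n11, n12⟩, ⟨n13, n14, n15⟩⟩ :=
    (toMM h).six he hf hef
  obtain ⟨Q, hQ⟩ : ∃ Q : Finset (Finset V),
      Q = (mis F {{u, v, t}, {a, b, c}}).filter (fun g => u ∉ g) := ⟨_, rfl⟩
  rw [← hQ]
  have key : ∀ p q r : V, p ≠ q → p ≠ r → q ≠ r → u ≠ p → u ≠ q → u ≠ r →
      (p ∈ ({u, v, t} : Finset V) ∨ p ∈ ({a, b, c} : Finset V)) →
      (q ∈ ({u, v, t} : Finset V) ∨ q ∈ ({a, b, c} : Finset V)) →
      (r ∈ ({u, v, t} : Finset V) ∨ r ∈ ({a, b, c} : Finset V)) →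
      (∃ z ∈ ({p, q, r} : Finset V), z ∈ ({u, v, t} : Finset V)) →
      (∃ z ∈ ({p, q, r} : Finset V), z ∈ ({a, b, c} : Finset V)) →
      ({p, q, r} : Finset V) ∉ F → ({p, q, r} : Finset V) ∈ Q := by
    intro p q r d1 d2 d3 e1 e2 e3 hp hq hr hx1 hx2 hF
    rw [hQ, mem_filter]
    refine ⟨mem_mis_two (card_eq_three.2 ⟨p, q, r, d1, d2, d3, rfl⟩) hF ?_ hx1 hx2, ?_⟩
    · intro z hz
      simp only [mem_insert, mem_singleton] at hz
      rcases hz with rfl | rfl | rfl
      · exact hp
      · exact hq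
      · exact hr
    · simp [e1, e2, e3]
  -- the three groups
  have g1 : mz F {v, t, a} + mz F {v, t, b} + mz F {v, t, c} ≤
      (Q.filter (fun g => v ∈ g ∧ t ∈ g)).card := by
    apply three_card
    · intro hh
      have : a ∈ ({v, t, b} : Finset V) := by rw [← hh]; simp
      simp [n4, n10.symm, n13.symm] at this
    · intro hh
      have : a ∈ ({v, t, c} : Finset V) := by rw [← hh]; simp
      simp [n5, n10.symm, n13.symm] at this
    · intro hh
      have : b ∈ ({v, t, c} : Finset V) := by rw [← hh]; simp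
      simp [n6, n11.symm, n14.symm] at this
    · intro hF
      exact mem_filter.2 ⟨key v t a n3 n10 n13 n1 n2 n7 (by simp) (by simp) (by simp)
        ⟨v, by simp, by simp⟩ ⟨a, by simp, by simp⟩ hF, by simp, by simp⟩
    · intro hF
      exact mem_filter.2 ⟨key v t b n3 n11 n14 n1 n2 n8 (by simp) (by simp) (by simp)
        ⟨v, by simp, by simp⟩ ⟨b, by simp, by simp⟩ hF, by simp, by simp⟩
    · intro hF
      exact mem_filter.2 ⟨key v t c n3 n12 n15 n1 n2 n9 (by simp) (by simp) (by simp)
        ⟨v, by simp, by simp⟩ ⟨c, by simp, by simp⟩ hF, by simp, by simp⟩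
  have g2 : mz F {v, b, c} + mz F {v, a, c} + mz F {v, a, b} ≤
      (Q.filter (fun g => v ∈ g ∧ t ∉ g)).card := by
    apply three_card
    · intro hh
      have : b ∈ ({v, a, c} : Finset V) := by rw [← hh]; simp
      simp [n4.symm, n11.symm, n6] at this
    · intro hh
      have : c ∈ ({v, a, b} : Finset V) := by rw [← hh]; simp
      simp [n5.symm, n12.symm, n6.symm] at this
    · intro hh
      have : c ∈ ({v, a, b} : Finset V) := by rw [← hh]; simp
      simp [n5.symm, n12.symm, n6.symm] at this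
    · intro hF
      exact mem_filter.2 ⟨key v b c n11 n12 n6 n1 n8 n9 (by simp) (by simp) (by simp)
        ⟨v, by simp, by simp⟩ ⟨b, by simp, by simp⟩ hF, by simp, by simp [n3.symm, n14, n15]⟩
    · intro hF
      exact mem_filter.2 ⟨key v a c n10 n12 n5 n1 n7 n9 (by simp) (by simp) (by simp)
        ⟨v, by simp, by simp⟩ ⟨a, by simp, by simp⟩ hF, by simp, by simp [n3.symm, n13, n15]⟩
    · intro hF
      exact mem_filter.2 ⟨key v a b n10 n11 n4 n1 n7 n8 (by simp) (by simp) (by simp)
        ⟨v, by simp, by simp⟩ ⟨a, by simp, by simp⟩ hF, by simp, by simp [n3.symm, n13, n14]⟩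
  have g3 : mz F {t, b, c} + mz F {t, a, c} + mz F {t, a, b} ≤
      (Q.filter (fun g => v ∉ g ∧ t ∈ g)).card := by
    apply three_card
    · intro hh
      have : b ∈ ({t, a, c} : Finset V) := by rw [← hh]; simp
      simp [n4.symm, n14.symm, n6] at this
    · intro hh
      have : c ∈ ({t, a, b} : Finset V) := by rw [← hh]; simp
      simp [n5.symm, n15.symm, n6.symm] at this
    · intro hh
      have : c ∈ ({t, a, b} : Finset V) := by rw [← hh]; simp
      simp [n5.symm, n15.symm, n6.symm] at this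
    · intro hF
      exact mem_filter.2 ⟨key t b c n14 n15 n6 n2 n8 n9 (by simp) (by simp) (by simp)
        ⟨t, by simp, by simp⟩ ⟨b, by simp, by simp⟩ hF, by simp [n3, n11, n12], by simp⟩
    · intro hF
      exact mem_filter.2 ⟨key t a c n13 n15 n5 n2 n7 n9 (by simp) (by simp) (by simp)
        ⟨t, by simp, by simp⟩ ⟨a, by simp, by simp⟩ hF, by simp [n3, n10, n12], by simp⟩
    · intro hF
      exact mem_filter.2 ⟨key t a b n13 n14 n4 n2 n7 n8 (by simp) (by simp) (by simp)
        ⟨t, by simp, by simp⟩ ⟨a, by simp, by simp⟩ hF, by simp [n3, n10, n11], by simp⟩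
  have d12 : Disjoint (Q.filter (fun g => v ∈ g ∧ t ∈ g)) (Q.filter (fun g => v ∈ g ∧ t ∉ g)) := by
    rw [Finset.disjoint_left]
    intro g h1 h2
    rw [mem_filter] at h1 h2
    exact h2.2.2 h1.2.2
  have d3 : Disjoint (Q.filter (fun g => v ∈ g ∧ t ∈ g) ∪ Q.filter (fun g => v ∈ g ∧ t ∉ g))
      (Q.filter (fun g => v ∉ g ∧ t ∈ g)) := by
    rw [Finset.disjoint_left]
    intro g h1 h2
    rw [mem_union, mem_filter, mem_filter] at h1
    rw [mem_filter] at h2
    rcases h1 with h1 | h1
    · exact h2.2.1 h1.2.1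
    · exact h2.2.1 h1.2.1
  have hU : (Q.filter (fun g => v ∈ g ∧ t ∈ g) ∪ Q.filter (fun g => v ∈ g ∧ t ∉ g)) ∪
      Q.filter (fun g => v ∉ g ∧ t ∈ g) ⊆ Q := by
    intro g hg
    rw [mem_union, mem_union, mem_filter, mem_filter, mem_filter] at hg
    rcases hg with (hg | hg) | hg <;> exact hg.1
  have := card_le_card hU
  rw [card_union_of_disjoint d3, card_union_of_disjoint d12] at this
  omega

/-- a label on `u a` and an inner triple with two points of `e` -/
theorem kill_in1 (hw : (lb F P x y u a).Nonempty) : 1 ≤ mz F {v, t, b} + ep F x y c := by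
  obtain ⟨w, hw⟩ := hw
  obtain ⟨h1, h2, h3, h4⟩ := mem_lb.1 hw
  by_contra hc
  push Not at hc
  have e1 : mz F {v, t, b} = 0 := by omega
  have e2 : ep F x y c = 0 := by omega
  have hE : c ∈ N F x y := by
    unfold ep at e2
    by_contra hn
    rw [if_neg hn] at e2
    omega
  exact label_inner (toMM h) h.avx h.avy he hf hef h2 h3 h4 h1 (mem_of_mz e1) hE

end Kills

/-- the four inner triples killed by a label on `u a` -/
theorem kill_in4 (h : SetUp F s j P x y) {u v t a b c : V} (he : ({u, v, t} : Finset V) ∈ P)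
    (hf : ({a, b, c} : Finset V) ∈ P) (hef : ({u, v, t} : Finset V) ≠ {a, b, c})
    (hw : (lb F P x y u a).Nonempty) :
    1 ≤ mz F {v, t, b} + ep F x y c ∧ 1 ≤ mz F {v, t, c} + ep F x y b ∧
      1 ≤ mz F {v, b, c} + ep F x y t ∧ 1 ≤ mz F {t, b, c} + ep F x y v := by
  have hw' : (lb F P x y a u).Nonempty := by rw [lb_comm]; exact hw
  have he' : ({u, t, v} : Finset V) ∈ P := by rw [← swap23]; exact he
  have hf' : ({a, c, b} : Finset V) ∈ P := by rw [← swap23]; exact hf
  have r1 : ({b, c, v} : Finset V) = {v, b, c} := by rw [rot v b c]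
  have r2 : ({b, c, t} : Finset V) = {t, b, c} := by rw [rot t b c]
  refine ⟨kill_in1 h he hf hef hw, ?_, ?_, ?_⟩
  · exact kill_in1 h he hf' (by rw [swap23 a c b]; exact hef) hw
  · have := kill_in1 h hf he hef.symm hw'
    rw [r1] at this
    exact this
  · have := kill_in1 h hf he' (by rw [swap23 u t v]; exact hef.symm) hw'
    rw [r2] at this
    exact this

section Lines

variable (h : SetUp F s j P x y) {u v t a b c : V}
  (he : ({u, v, t} : Finset V) ∈ P) (hf : ({a, b, c} : Finset V) ∈ P)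
  (hef : ({u, v, t} : Finset V) ≠ {a, b, c})
include h he hf hef

/-- one labelled cell: four missing inner triples without `u` -/
theorem kills1 (hw : (lb F P x y u a).Nonempty) :
    4 ≤ ((mis F {{u, v, t}, {a, b, c}}).filter (fun g => u ∉ g)).card +
      (ep F x y b + ep F x y c + ep F x y v + ep F x y t) := by
  obtain ⟨k1, k2, k3, k4⟩ := kill_in4 h he hf hef hw
  have := mis_off h he hf hef
  omega

/-- the four triples killed by a label on `u b` -/
theorem kill_in4b (hw : (lb F P x y u b).Nonempty) :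
    1 ≤ mz F {v, t, a} + ep F x y c ∧ 1 ≤ mz F {v, t, c} + ep F x y a ∧
      1 ≤ mz F {v, a, c} + ep F x y t ∧ 1 ≤ mz F {t, a, c} + ep F x y v := by
  have hf' : ({b, a, c} : Finset V) ∈ P := by rw [triple_comm12]; exact hf
  exact kill_in4 h he hf' (by rw [triple_comm12 b a c]; exact hef) hw

/-- the four triples killed by a label on `u c` -/
theorem kill_in4c (hw : (lb F P x y u c).Nonempty) :
    1 ≤ mz F {v, t, a} + ep F x y b ∧ 1 ≤ mz F {v, t, b} + ep F x y a ∧
      1 ≤ mz F {v, a, b} + ep F x y t ∧ 1 ≤ mz F {t, a, b} + ep F x y v := by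
  have hf' : ({c, a, b} : Finset V) ∈ P := by rw [rot c a b]; exact hf
  exact kill_in4 h he hf' (by rw [rot c a b]; exact hef) hw

/-- two labelled cells `u a`, `u b`: seven missing inner triples without `u` -/
theorem kills2 (hwa : (lb F P x y u a).Nonempty) (hwb : (lb F P x y u b).Nonempty) :
    7 ≤ ((mis F {{u, v, t}, {a, b, c}}).filter (fun g => u ∉ g)).card +
      (min (ep F x y a) (ep F x y b) + 2 * ep F x y c + 2 * ep F x y v + 2 * ep F x y t) := by
  obtain ⟨k1, k2, k3, k4⟩ := kill_in4 h he hf hef hwa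
  obtain ⟨l1, l2, l3, l4⟩ := kill_in4b h he hf hef hwb
  have := mis_off h he hf hef
  have hm : 1 ≤ mz F {v, t, c} + min (ep F x y a) (ep F x y b) := by
    rcases min_choice (ep F x y a) (ep F x y b) with hh | hh <;> rw [hh] <;> assumption
  omega

/-- the three cells of the row `u` are labelled: nine missing inner triples without `u` -/
theorem kills3 (hwa : (lb F P x y u a).Nonempty) (hwb : (lb F P x y u b).Nonempty)
    (hwc : (lb F P x y u c).Nonempty) :
    9 ≤ ((mis F {{u, v, t}, {a, b, c}}).filter (fun g => u ∉ g)).card +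
      (min (ep F x y a) (ep F x y b) + min (ep F x y a) (ep F x y c) +
        min (ep F x y b) (ep F x y c) + 3 * ep F x y v + 3 * ep F x y t) := by
  obtain ⟨k1, k2, k3, k4⟩ := kill_in4 h he hf hef hwa
  obtain ⟨l1, l2, l3, l4⟩ := kill_in4b h he hf hef hwb
  obtain ⟨m1, m2, m3, m4⟩ := kill_in4c h he hf hef hwc
  have := mis_off h he hf hef
  have h1 : 1 ≤ mz F {v, t, c} + min (ep F x y a) (ep F x y b) := by
    rcases min_choice (ep F x y a) (ep F x y b) with hh | hh <;> rw [hh] <;> assumption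
  have h2 : 1 ≤ mz F {v, t, b} + min (ep F x y a) (ep F x y c) := by
    rcases min_choice (ep F x y a) (ep F x y c) with hh | hh <;> rw [hh] <;> assumption
  have h3 : 1 ≤ mz F {v, t, a} + min (ep F x y b) (ep F x y c) := by
    rcases min_choice (ep F x y b) (ep F x y c) with hh | hh <;> rw [hh] <;> assumption
  omega

/-- the missing inner triples `u t b`, `u t c`, `u b c` -/
theorem mis_on : mz F {u, t, b} + mz F {u, t, c} + mz F {u, b, c} ≤
    ((mis F {{u, v, t}, {a, b, c}}).filter (fun g => ¬ (u ∉ g))).card := by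
  obtain ⟨⟨n1, n2, n3⟩, ⟨n4, n5, n6⟩, ⟨n7, n8, n9⟩, ⟨n10, n11, n12⟩, ⟨n13, n14, n15⟩⟩ :=
    (toMM h).six he hf hef
  have key : ∀ p q r : V, p ≠ q → p ≠ r → q ≠ r → u ∈ ({p, q, r} : Finset V) →
      (p ∈ ({u, v, t} : Finset V) ∨ p ∈ ({a, b, c} : Finset V)) →
      (q ∈ ({u, v, t} : Finset V) ∨ q ∈ ({a, b, c} : Finset V)) →
      (r ∈ ({u, v, t} : Finset V) ∨ r ∈ ({a, b, c} : Finset V)) →
      (∃ z ∈ ({p, q, r} : Finset V), z ∈ ({u, v, t} : Finset V)) →
      (∃ z ∈ ({p, q, r} : Finset V), z ∈ ({a, b, c} : Finset V)) →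
      ({p, q, r} : Finset V) ∉ F → ({p, q, r} : Finset V) ∈
        (mis F {{u, v, t}, {a, b, c}}).filter (fun g => ¬ (u ∉ g)) := by
    intro p q r d1 d2 d3 e1 hp hq hr hx1 hx2 hF
    rw [mem_filter]
    refine ⟨mem_mis_two (card_eq_three.2 ⟨p, q, r, d1, d2, d3, rfl⟩) hF ?_ hx1 hx2, ?_⟩
    · intro z hz
      simp only [mem_insert, mem_singleton] at hz
      rcases hz with rfl | rfl | rfl
      · exact hp
      · exact hq
      · exact hr
    · exact not_not.2 e1
  apply three_card
  · intro hh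
    have : b ∈ ({u, t, c} : Finset V) := by rw [← hh]; simp
    simp [n8.symm, n14.symm, n6] at this
  · intro hh
    have : t ∈ ({u, b, c} : Finset V) := by rw [← hh]; simp
    simp [n2.symm, n14, n15] at this
  · intro hh
    have : t ∈ ({u, b, c} : Finset V) := by rw [← hh]; simp
    simp [n2.symm, n14, n15] at this
  · exact key u t b n2 n8 n14 (by simp) (by simp) (by simp) (by simp)
      ⟨u, by simp, by simp⟩ ⟨b, by simp, by simp⟩
  · exact key u t c n2 n9 n15 (by simp) (by simp) (by simp) (by simp)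
      ⟨u, by simp, by simp⟩ ⟨c, by simp, by simp⟩
  · exact key u b c n8 n9 n6 (by simp) (by simp) (by simp) (by simp)
      ⟨u, by simp, by simp⟩ ⟨b, by simp, by simp⟩

/-- the cross `u a`, `u b`, `v a` of labelled cells: ten missing inner triples -/
theorem kills_cross (hwa : (lb F P x y u a).Nonempty) (hwb : (lb F P x y u b).Nonempty)
    (hwv : (lb F P x y v a).Nonempty) :
    10 ≤ (mis F {{u, v, t}, {a, b, c}}).card +
      (3 * ep F x y c + 3 * ep F x y t + ep F x y v + ep F x y b +
        min (ep F x y a) (ep F x y b) + min (ep F x y u) (ep F x y v)) := by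
  obtain ⟨k1, k2, k3, k4⟩ := kill_in4 h he hf hef hwa
  obtain ⟨l1, l2, l3, l4⟩ := kill_in4b h he hf hef hwb
  have he' : ({v, u, t} : Finset V) ∈ P := by rw [triple_comm12]; exact he
  obtain ⟨m1, m2, m3, m4⟩ := kill_in4 h he' hf (by rw [triple_comm12 v u t]; exact hef) hwv
  have h1 := mis_off h he hf hef
  have h2 := mis_on h he hf hef
  have h3 := card_filter_add_card_filter_not (s := mis F {{u, v, t}, {a, b, c}})
    (fun g => u ∉ g)
  have h4 : 1 ≤ mz F {v, t, c} + min (ep F x y a) (ep F x y b) := by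
    rcases min_choice (ep F x y a) (ep F x y b) with hh | hh <;> rw [hh] <;> assumption
  have h5 : 1 ≤ mz F {t, b, c} + min (ep F x y u) (ep F x y v) := by
    rcases min_choice (ep F x y u) (ep F x y v) with hh | hh <;> rw [hh] <;> assumption
  omega

/-- the types of the two blocks in coordinates -/
theorem ty_two : ty F x y {u, v, t} = ep F x y u + ep F x y v + ep F x y t ∧
    ty F x y {a, b, c} = ep F x y a + ep F x y b + ep F x y c := by
  obtain ⟨⟨n1, n2, n3⟩, ⟨n4, n5, n6⟩, -, -, -⟩ := (toMM h).six he hf hef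
  exact ⟨by rw [ty_eq, sum3 n1 n2 n3], by rw [ty_eq, sum3 n4 n5 n6]⟩

theorem kills1_ty (hw : (lb F P x y u a).Nonempty) :
    4 ≤ ((mis F {{u, v, t}, {a, b, c}}).filter (fun g => u ∉ g)).card +
      (ty F x y {u, v, t} + ty F x y {a, b, c}) := by
  have := kills1 h he hf hef hw
  obtain ⟨e1, e2⟩ := ty_two h he hf hef
  omega

theorem kills2_ty (hwa : (lb F P x y u a).Nonempty) (hwb : (lb F P x y u b).Nonempty) :
    7 ≤ ((mis F {{u, v, t}, {a, b, c}}).filter (fun g => u ∉ g)).card +
      2 * (ty F x y {u, v, t} + ty F x y {a, b, c}) := by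
  have := kills2 h he hf hef hwa hwb
  obtain ⟨e1, e2⟩ := ty_two h he hf hef
  have := min_le_left (ep F x y a) (ep F x y b)
  omega

theorem kills3_ty (hwa : (lb F P x y u a).Nonempty) (hwb : (lb F P x y u b).Nonempty)
    (hwc : (lb F P x y u c).Nonempty) :
    9 ≤ ((mis F {{u, v, t}, {a, b, c}}).filter (fun g => u ∉ g)).card +
      3 * ty F x y {u, v, t} + 2 * (ty F x y {a, b, c} - 1) + (ty F x y {a, b, c} - 2) := by
  have h0 := kills3 h he hf hef hwa hwb hwc
  obtain ⟨e1, e2⟩ := ty_two h he hf hef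
  have := ep_le (F := F) (x := x) (y := y) a
  have := ep_le (F := F) (x := x) (y := y) b
  have := ep_le (F := F) (x := x) (y := y) c
  omega

theorem kills_cross_ty (hwa : (lb F P x y u a).Nonempty) (hwb : (lb F P x y u b).Nonempty)
    (hwv : (lb F P x y v a).Nonempty) :
    10 ≤ (mis F {{u, v, t}, {a, b, c}}).card +
      3 * (ty F x y {u, v, t} + ty F x y {a, b, c}) := by
  have := kills_cross h he hf hef hwa hwb hwv
  obtain ⟨e1, e2⟩ := ty_two h he hf hef
  have := min_le_left (ep F x y a) (ep F x y b)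
  have := min_le_left (ep F x y u) (ep F x y v)
  omega

/-- the numbers 3, 5, 6, 7 if there is at most one point of `J` in the two blocks -/
theorem kills_le_one (ht : ty F x y {u, v, t} + ty F x y {a, b, c} ≤ 1) :
    ((lb F P x y u a).Nonempty →
      3 ≤ ((mis F {{u, v, t}, {a, b, c}}).filter (fun g => u ∉ g)).card) ∧
    ((lb F P x y u a).Nonempty → (lb F P x y u b).Nonempty →
      5 ≤ ((mis F {{u, v, t}, {a, b, c}}).filter (fun g => u ∉ g)).card) ∧
    ((lb F P x y u a).Nonempty → (lb F P x y u b).Nonempty → (lb F P x y u c).Nonempty →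
      6 ≤ ((mis F {{u, v, t}, {a, b, c}}).filter (fun g => u ∉ g)).card) ∧
    ((lb F P x y u a).Nonempty → (lb F P x y u b).Nonempty → (lb F P x y v a).Nonempty →
      7 ≤ (mis F {{u, v, t}, {a, b, c}}).card) := by
  refine ⟨fun h1 => ?_, fun h1 h2 => ?_, fun h1 h2 h3 => ?_, fun h1 h2 h3 => ?_⟩
  · have := kills1_ty h he hf hef h1
    omega
  · have := kills2_ty h he hf hef h1 h2
    omega
  · have := kills3_ty h he hf hef h1 h2 h3
    omega
  · have := kills_cross_ty h he hf hef h1 h2 h3
    omega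

end Lines

end RouteA
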